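import Pool.Agent.R387.MD.More

/-!
# Decision problems in finitely presented monsters of types (3), (4), (6)

* A finitely presented group with finitely many conjugacy classes has decidable conjugacy problem (and
  word problem).
* An infinite finitely presented group of type (3) has decidable word problem, and it is decidable
  whether a finite list of words generates the group; if the group is a torsion group (for instance of
  type (4)) or torsion-free, then the membership problem for finitely generated subgroups is decidable.
* No infinite finitely generated group is of types (3) and (5), and those of types (3) and (6) are of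
  type (2).
-/

set_option autoImplicit false

namespace Pool.Agent.Results.MP_65b575_al.DecisionProblems

universe u

/-- Type (2): for some `n ≥ 1` all elements satisfy `g ^ n = 1`. -/
def Type2 (G : Type u) [Group G] : Prop := ∃ n : ℕ, 1 ≤ n ∧ ∀ g : G, g ^ n = 1

/-- Type (3): `G` is not cyclic, and every proper subgroup of `G` is cyclic. -/
def Type3 (G : Type u) [Group G] : Prop :=
  ¬ IsCyclic G ∧ ∀ H : Subgroup G, H ≠ ⊤ → IsCyclic H

/-- Type (4): for some prime `p` every nontrivial proper subgroup is cyclic of order `p`. -/
def Type4 (G : Type u) [Group G] : Prop :=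
  ∃ p : ℕ, p.Prime ∧ ∀ H : Subgroup G, H ≠ ⊥ → H ≠ ⊤ → IsCyclic H ∧ Nat.card H = p

/-- Type (5): `G` is complete. -/
def Type5 (G : Type u) [Group G] : Prop := ∀ g : G, ∀ m : ℕ, 1 ≤ m → ∃ h : G, h ^ m = g

/-- Type (6): `G` has finitely many conjugacy classes. -/
def Type6 (G : Type u) [Group G] : Prop := Finite (ConjClasses G)

/-- Words in `n` letters and their inverses. -/
abbrev Word (n : ℕ) := List (Fin n × Bool)

section

variable {G : Type u} [Group G] {n : ℕ} (φ : FreeGroup (Fin n) →* G)

/-- the element of `G` represented by a word -/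
def el (w : Word n) : G := φ (FreeGroup.mk w)

/-- the subgroup generated by the elements represented by the words of a list -/
def sub (l : List (Word n)) : Subgroup G := Subgroup.closure {g | ∃ u ∈ l, el φ u = g}

/-- `φ` is a finite presentation of `G`: it is surjective, and its kernel is the normal closure of a
finite set. -/
structure FinPres : Prop where
  surj : Function.Surjective φ
  fin : φ.ker.IsFinitelyNormallyGenerated

/-- The word problem is decidable. -/
def WordProblem : Prop := ComputablePred fun w : Word n => el φ w = 1

/-- The conjugacy problem is decidable. -/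
def ConjugacyProblem : Prop :=
  ComputablePred fun q : Word n × Word n => IsConj (el φ q.1) (el φ q.2)

/-- It is decidable whether finitely many given words generate the group. -/
def GenerationProblem : Prop := ComputablePred fun l : List (Word n) => sub φ l = ⊤

/-- It is decidable whether a given word lies in the subgroup generated by finitely many given
words. -/
def MembershipProblem : Prop :=
  ComputablePred fun q : Word n × List (Word n) => el φ q.1 ∈ sub φ q.2

end

theorem type4_type3 {G : Type u} [Group G] [Infinite G] (h : Type4 G) : Type3 G := by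
  obtain ⟨p, hp, h⟩ := h
  refine ⟨?_, ?_⟩
  · rintro ⟨c, hc⟩
    have hcf : ¬ IsOfFinOrder c := by
      intro hf
      have h1 : (Set.univ : Set G).Finite := by
        refine hf.finite_zpowers.subset ?_
        intro g _
        obtain ⟨a, ha⟩ := hc g
        exact ⟨a, ha⟩
      exact Set.infinite_univ h1
    have h1 : Subgroup.zpowers (c ^ (2 : ℤ)) ≠ ⊥ := by
      intro e
      rw [Subgroup.zpowers_eq_bot] at e
      have := R673.MG.zpow_inj_of hcf (e.trans (zpow_zero c).symm)
      omega
    have h2 : Subgroup.zpowers (c ^ (2 : ℤ)) ≠ ⊤ := by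
      intro e
      have h3 : c ∈ Subgroup.zpowers (c ^ (2 : ℤ)) := by rw [e]; trivial
      obtain ⟨a, ha⟩ := h3
      have ha' : (c ^ (2 : ℤ)) ^ a = c ^ (1 : ℤ) := by rw [zpow_one]; exact ha
      rw [← zpow_mul] at ha'
      have := R673.MG.zpow_inj_of hcf ha'
      omega
    obtain ⟨-, h3⟩ := h _ h1 h2
    rw [Nat.card_zpowers] at h3
    have h4 : IsOfFinOrder (c ^ (2 : ℤ)) := by
      rw [← orderOf_pos_iff, h3]
      exact hp.pos
    apply hcf
    obtain ⟨n, hn, hn1⟩ := isOfFinOrder_iff_pow_eq_one.1 h4
    rw [← zpow_natCast, ← zpow_mul] at hn1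
    have := R673.MG.zpow_inj_of hcf (hn1.trans (zpow_zero c).symm)
    omega
  · intro H hH
    by_cases hb : H = ⊥
    · rw [hb]
      exact isCyclic_of_subsingleton
    · exact (h H hb hH).1

theorem type4_torsion {G : Type u} [Group G] [Infinite G] (h : Type4 G) (g : G) :
    IsOfFinOrder g := by
  have h3 := type4_type3 h
  obtain ⟨p, hp, h⟩ := h
  by_cases hg : g = 1
  · rw [hg]; exact IsOfFinOrder.one
  have h1 : Subgroup.zpowers g ≠ ⊥ := fun e => hg (Subgroup.zpowers_eq_bot.1 e)
  have h2 : Subgroup.zpowers g ≠ ⊤ := by
    intro e
    refine h3.1 ⟨g, fun x => ?_⟩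
    have hx : x ∈ Subgroup.zpowers g := by rw [e]; trivial
    exact hx
  obtain ⟨-, h4⟩ := h _ h1 h2
  rw [Nat.card_zpowers] at h4
  rw [← orderOf_pos_iff, h4]
  exact hp.pos

/-- (a) Finitely presented groups with finitely many conjugacy classes have decidable conjugacy and
word problems.
(b) Infinite finitely presented groups of type (3) have decidable word and generation problems, and
decidable membership problem if they are torsion groups or torsion-free.
(c) Infinite finitely presented groups of type (4) have decidable word, generation and membership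
problems.
(d) An infinite finitely generated group of type (3) is not of type (5), and it is of type (2) if it is
of type (6). -/
theorem result :
    (∀ (G : Type u) [Group G] (n : ℕ) (φ : FreeGroup (Fin n) →* G), FinPres φ → Type6 G →
      ConjugacyProblem φ ∧ WordProblem φ) ∧
    (∀ (G : Type u) [Group G] [Infinite G] (n : ℕ) (φ : FreeGroup (Fin n) →* G), FinPres φ →
      Type3 G → WordProblem φ ∧ GenerationProblem φ ∧
        (((∀ g : G, IsOfFinOrder g) ∨ (∀ g : G, IsOfFinOrder g → g = 1)) →
          MembershipProblem φ)) ∧
    (∀ (G : Type u) [Group G] [Infinite G] (n : ℕ) (φ : FreeGroup (Fin n) →* G), FinPres φ →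
      Type4 G → WordProblem φ ∧ GenerationProblem φ ∧ MembershipProblem φ) ∧
    ∀ (G : Type u) [Group G] [Infinite G] [Group.FG G], Type3 G →
      ¬ Type5 G ∧ (Type6 G → Type2 G) := by
  have hB : ∀ (G : Type u) [Group G] [Infinite G] (n : ℕ) (φ : FreeGroup (Fin n) →* G),
      FinPres φ → Type3 G → WordProblem φ ∧ GenerationProblem φ ∧
        (((∀ g : G, IsOfFinOrder g) ∨ (∀ g : G, IsOfFinOrder g → g = 1)) →
          MembershipProblem φ) := by
    intro G _ _ n φ hφ h3
    have hfg : Group.FG G := Group.fg_of_surjective hφ.surj
    have hct := R387.FM.center_ne_top (R673.MG.cyclic_no_fi h3.1 h3.2)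
    have h1 : R387.MD.Enum fun w : Word n => R387.MD.el φ w = 1 := R387.MD.wp_enum φ hφ.fin
    have h2 : R387.MD.Enum fun w : Word n => ¬ R387.MD.el φ w = 1 :=
      R387.MD.ne_enum h3.1 h3.2 hφ.surj hct h1
    refine ⟨R387.MD.Enum.computable h1 h2, ?_, ?_⟩
    · exact R387.MD.Enum.computable (R387.MD.gen_enum hφ.surj h1)
        (R387.MD.not_gen_enum h3.2 hct h1)
    · rintro (htor | hfree)
      · exact R387.MD.Enum.computable (R387.MD.mem_enum h1)
          (R387.MD.not_mem_enum_torsion h3.2 hφ.surj htor h1 h2)
      · exact R387.MD.Enum.computable (R387.MD.mem_enum h1)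
          (R387.MD.not_mem_enum_free h3.2 hφ.surj hfree hct h1 h2)
  refine ⟨?_, hB, ?_, ?_⟩
  · intro G _ n φ hφ h6
    have h6' : Finite (ConjClasses G) := h6
    have h1 : R387.MD.Enum fun w : Word n => R387.MD.el φ w = 1 := R387.MD.wp_enum φ hφ.fin
    have h2 := R387.MD.conj_dec hφ.surj h1
    exact ⟨h2, R387.MD.wp_of_conj h2⟩
  · intro G _ _ n φ hφ h4
    obtain ⟨h1, h2, h3⟩ := hB G n φ hφ (type4_type3 h4)
    exact ⟨h1, h2, h3 (Or.inl (type4_torsion h4))⟩
  · intro G _ _ hfg h3
    have hct := R387.FM.center_ne_top (R673.MG.cyclic_no_fi h3.1 h3.2)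
    refine ⟨R387.MD.not_complete h3.2 hct, fun h6 => ?_⟩
    have h6' : Finite (ConjClasses G) := h6
    exact R387.MD.exponent_of_torsion fun g => R387.MD.torsion_of_finite h3.2 g

end Pool.Agent.Results.MP_65b575_al.DecisionProblems
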