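import Pool.Agent.R387.FM.Simple
import Pool.Agent.R387.FM.Growth

/-!
# Finitely presented monsters of types (3), (4), (6) exist if and only if simple ones do

* If `G` is a finitely presented monster of type (6) (finitely many conjugacy classes), then `G` has a
  least subgroup `H` of finite index, and `H` has a quotient which is an infinite simple finitely
  presented group with finitely many conjugacy classes.
* If `G` is a finitely presented monster of type (3) (all proper subgroups are cyclic), then the centre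
  is the largest proper normal subgroup of `G`, and the quotient is an infinite simple finitely
  presented monster of type (3).
* Monsters of type (4) are simple.
* A monster of type (6) is of type (2) or has exponential growth, so it is not of type (7).
-/

set_option autoImplicit false

open scoped Pointwise

namespace Pool.Agent.Results.MP_65b575_al.SimpleMonsters

universe u

/-- Type (2): for some `n ≥ 1` all elements satisfy `g ^ n = 1`. -/
def Type2 (G : Type u) [Group G] : Prop := ∃ n : ℕ, 1 ≤ n ∧ ∀ g : G, g ^ n = 1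

/-- Type (3): `G` is not cyclic, and every proper subgroup of `G` is cyclic. -/
def Type3 (G : Type u) [Group G] : Prop :=
  ¬ IsCyclic G ∧ ∀ H : Subgroup G, H ≠ ⊤ → IsCyclic H

/-- Type (4): for some prime `p` every nontrivial proper subgroup is cyclic of order `p`. -/
def Type4 (G : Type u) [Group G] : Prop :=
  ∃ p : ℕ, p.Prime ∧ ∀ H : Subgroup G, H ≠ ⊥ → H ≠ ⊤ → IsCyclic H ∧ Nat.card H = p

/-- Type (6): `G` has finitely many conjugacy classes. -/
def Type6 (G : Type u) [Group G] : Prop := Finite (ConjClasses G)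

/-- The growth function with respect to `S`: the number of elements of word length at most `n`. -/
noncomputable def growth {G : Type u} [Group G] (S : Finset G) (n : ℕ) : ℕ :=
  (((S : Set G) ∪ (S : Set G)⁻¹ ∪ {1}) ^ n).ncard

/-- There is an infinite finitely presented group with property `T` if and only if there is an infinite
finitely presented simple group with property `T`. -/
def ExistsIffSimple (T : ∀ (G : Type u) [Group G], Prop) : Prop :=
  (∃ (G : Type u) (_ : Group G), Infinite G ∧ Group.IsFinitelyPresented G ∧ T G) ↔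
    ∃ (G : Type u) (_ : Group G), Infinite G ∧ Group.IsFinitelyPresented G ∧ IsSimpleGroup G ∧ T G

/-- a finitely presented infinite simple group -/
structure SimpleFP (G : Type u) [Group G] : Prop where
  infinite : Infinite G
  fp : Group.IsFinitelyPresented G
  simple : IsSimpleGroup G

theorem type4_type3 {G : Type u} [Group G] [Infinite G] (h : Type4 G) : Type3 G := by
  obtain ⟨p, hp, h⟩ := h
  refine ⟨?_, ?_⟩
  · rintro ⟨c, hc⟩
    have hcf : ¬ IsOfFinOrder c := by
      intro hf
      have h1 : (Set.univ : Set G).Finite := by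
        refine hf.finite_zpowers.subset ?_
        intro g _
        obtain ⟨a, ha⟩ := hc g
        exact ⟨a, ha⟩
      exact Set.infinite_univ h1
    have h1 : Subgroup.zpowers (c ^ (2 : ℤ)) ≠ ⊥ := by
      intro e
      rw [Subgroup.zpowers_eq_bot] at e
      have := R673.MG.zpow_inj_of hcf (e.trans (zpow_zero c).symm)
      omega
    have h2 : Subgroup.zpowers (c ^ (2 : ℤ)) ≠ ⊤ := by
      intro e
      have h3 : c ∈ Subgroup.zpowers (c ^ (2 : ℤ)) := by rw [e]; trivial
      obtain ⟨a, ha⟩ := h3
      have ha' : (c ^ (2 : ℤ)) ^ a = c ^ (1 : ℤ) := by rw [zpow_one]; exact ha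
      rw [← zpow_mul] at ha'
      have := R673.MG.zpow_inj_of hcf ha'
      omega
    obtain ⟨-, h3⟩ := h _ h1 h2
    rw [Nat.card_zpowers] at h3
    have h4 : IsOfFinOrder (c ^ (2 : ℤ)) := by
      rw [← orderOf_pos_iff, h3]
      exact hp.pos
    apply hcf
    obtain ⟨n, hn, hn1⟩ := isOfFinOrder_iff_pow_eq_one.1 h4
    rw [← zpow_natCast, ← zpow_mul] at hn1
    have := R673.MG.zpow_inj_of hcf (hn1.trans (zpow_zero c).symm)
    omega
  · intro H hH
    by_cases hb : H = ⊥
    · rw [hb]
      exact isCyclic_of_subsingleton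
    · exact (h H hb hH).1

theorem type4_simple {G : Type u} [Group G] [Infinite G] (h : Type4 G) : IsSimpleGroup G := by
  have h3 := type4_type3 h
  obtain ⟨p, hp, h⟩ := h
  exact R387.FM.tarski_simple h3.1 h3.2 hp fun H h1 h2 => (h H h1 h2).2

/-- Finitely presented monsters of types (3), (4), (6) exist if and only if simple ones exist; more
precisely:
(a) for every infinite finitely presented group `G` with finitely many conjugacy classes there are a
normal subgroup `H` of finite index, contained in all subgroups of finite index, and a normal subgroup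
`K` of `H` such that `H / K` is infinite, simple, finitely presented and has finitely many conjugacy
classes;
(b) for every infinite finitely presented group `G` of type (3) the centre is the largest proper normal
subgroup and `G / Z(G)` is infinite, simple, finitely presented and of type (3);
(c) infinite groups of type (4) are simple;
(d) an infinite group with finitely many conjugacy classes and a finite generating set `S` is of type
(2), or its growth function is bounded below by some `e ^ (c r)`, `c > 0`. -/
theorem result :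
    (ExistsIffSimple.{u} fun G _ => Type3 G) ∧ (ExistsIffSimple.{u} fun G _ => Type4 G) ∧
    (ExistsIffSimple.{u} fun G _ => Type6 G) ∧
    (∀ (G : Type u) [Group G] [Infinite G] [Group.IsFinitelyPresented G], Type6 G →
      ∃ (H : Subgroup G) (K : Subgroup H) (_ : K.Normal), H.Normal ∧ H.FiniteIndex ∧
        (∀ L : Subgroup G, L.FiniteIndex → H ≤ L) ∧ SimpleFP (H ⧸ K) ∧ Type6 (H ⧸ K)) ∧
    (∀ (G : Type u) [Group G] [Infinite G] [Group.IsFinitelyPresented G], Type3 G →
      Subgroup.center G ≠ ⊤ ∧ (∀ N : Subgroup G, N.Normal → N ≠ ⊤ → N ≤ Subgroup.center G) ∧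
        SimpleFP (G ⧸ Subgroup.center G) ∧ Type3 (G ⧸ Subgroup.center G)) ∧
    (∀ (G : Type u) [Group G] [Infinite G], Type4 G → IsSimpleGroup G) ∧
    ∀ (G : Type u) [Group G] [Infinite G] (S : Finset G), Subgroup.closure (S : Set G) = ⊤ →
      Type6 G → Type2 G ∨ ∃ c : ℝ, 0 < c ∧ ∀ r : ℕ, Real.exp (c * r) ≤ (growth S r : ℝ) := by
  have hA : ∀ (G : Type u) [Group G] [Infinite G] [Group.IsFinitelyPresented G], Type6 G →
      ∃ (H : Subgroup G) (K : Subgroup H) (_ : K.Normal), H.Normal ∧ H.FiniteIndex ∧
        (∀ L : Subgroup G, L.FiniteIndex → H ≤ L) ∧ SimpleFP (H ⧸ K) ∧ Type6 (H ⧸ K) := by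
    intro G _ _ _ h
    obtain ⟨H, K, hK, h1, h2, h3, h4, h5, h6, h7⟩ := R387.FM.simple_section h
    exact ⟨H, K, hK, h1, h2, h3, ⟨h4, h5, h6⟩, h7⟩
  have hB : ∀ (G : Type u) [Group G] [Infinite G] [Group.IsFinitelyPresented G], Type3 G →
      Subgroup.center G ≠ ⊤ ∧ (∀ N : Subgroup G, N.Normal → N ≠ ⊤ → N ≤ Subgroup.center G) ∧
        SimpleFP (G ⧸ Subgroup.center G) ∧ Type3 (G ⧸ Subgroup.center G) := by
    intro G _ _ _ h
    obtain ⟨h1, h2, h3, h4, h5, h6, h7⟩ := R387.FM.cyclic_main h.1 h.2
    exact ⟨h1, h2, ⟨h3, h4, h5⟩, h6, h7⟩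
  refine ⟨⟨?_, ?_⟩, ⟨?_, ?_⟩, ⟨?_, ?_⟩, hA, hB, fun G _ _ h => type4_simple h, ?_⟩
  · rintro ⟨G, _, h1, h2, h3⟩
    obtain ⟨-, -, h4, h5⟩ := hB G h3
    exact ⟨_, _, h4.infinite, h4.fp, h4.simple, h5⟩
  · rintro ⟨G, _, h1, h2, -, h3⟩
    exact ⟨G, _, h1, h2, h3⟩
  · rintro ⟨G, _, h1, h2, h3⟩
    exact ⟨G, _, h1, h2, type4_simple h3, h3⟩
  · rintro ⟨G, _, h1, h2, -, h3⟩
    exact ⟨G, _, h1, h2, h3⟩
  · rintro ⟨G, _, h1, h2, h3⟩
    obtain ⟨H, K, hK, -, -, -, h4, h5⟩ := hA G h3
    exact ⟨_, _, h4.infinite, h4.fp, h4.simple, h5⟩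
  · rintro ⟨G, _, h1, h2, -, h3⟩
    exact ⟨G, _, h1, h2, h3⟩
  · intro G _ _ S hS h
    exact R387.FM.exponent_or_exp h hS

end Pool.Agent.Results.MP_65b575_al.SimpleMonsters
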