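import Pool.Agent.R673.MG.Growth

/-!
# Finitely presented monsters and tree-like Schreier graphs

A finitely presented monster of type (3), (4) or (5) has no proper subgroup of finite index, all its
Schreier graphs that lie with bounded fibres over graphs without short cycles (for instance trees)
satisfy a linear isoperimetric inequality, and if the group is amenable or has subexponential
growth (type (7)), then it has no nontrivial action with such a Schreier graph.

The main ingredient is `Pool.Agent.H71R2.TW.main` of the starting files (not used there): a tree-like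
Schreier graph with few boundary points can be cut and glued to a finite action in which all
relators hold, hence, for a finitely presented group, to a finite nontrivial action of the group.
-/

set_option autoImplicit false

open scoped Pointwise

namespace Pool.Agent.Results.MP_65b575_al.TreeLikeActions

universe u v w

/-- Type (3): `G` is not cyclic, and every proper subgroup of `G` is cyclic. -/
def Type3 (G : Type u) [Group G] : Prop :=
  ¬ IsCyclic G ∧ ∀ H : Subgroup G, H ≠ ⊤ → IsCyclic H

/-- Type (4): for some prime `p` every nontrivial proper subgroup is cyclic of order `p`. -/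
def Type4 (G : Type u) [Group G] : Prop :=
  ∃ p : ℕ, p.Prime ∧ ∀ H : Subgroup G, H ≠ ⊥ → H ≠ ⊤ → IsCyclic H ∧ Nat.card H = p

/-- Type (5): `G` is complete. -/
def Type5 (G : Type u) [Group G] : Prop :=
  ∀ g : G, ∀ m : ℕ, 1 ≤ m → ∃ h : G, h ^ m = g

/-- `G` has no proper subgroup of finite index. -/
def NoFiniteIndex (G : Type u) [Group G] : Prop :=
  ∀ H : Subgroup G, H.FiniteIndex → H = ⊤

/-- The growth function with respect to `S`: the number of elements of word length at most `n`. -/
noncomputable def growth {G : Type u} [Group G] (S : Finset G) (n : ℕ) : ℕ :=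
  (((S : Set G) ∪ (S : Set G)⁻¹ ∪ {1}) ^ n).ncard

/-- The growth function is bounded below by no exponential function `e ^ (c r)`, `c > 0` (the
second half of type (7)). -/
def Subexponential {G : Type u} [Group G] (S : Finset G) : Prop :=
  ∀ c : ℝ, 0 < c → ∃ r : ℕ, (growth S r : ℝ) < Real.exp (c * r)

/-- `G` is amenable: there is a finitely additive invariant probability measure on `G`. -/
def Amenable (G : Type u) [Group G] : Prop :=
  ∃ m : Set G → ℝ, (∀ A, 0 ≤ m A) ∧ m Set.univ = 1 ∧
    (∀ A B : Set G, Disjoint A B → m (A ∪ B) = m A + m B) ∧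
    ∀ (g : G) (A : Set G), m ((fun x => g * x) ⁻¹' A) = m A

/-- The graph `T` has no cycle of length at most `L`. -/
def NoShortCycle {V : Type w} (T : SimpleGraph V) (L : ℕ) : Prop :=
  ∀ (v : V) (c : T.Walk v v), c.IsCycle → L < c.length

/-- The Schreier graph of the action of `G` on `X` with respect to `S` lies over the graph `T`,
which has no cycle of length at most `L`: the fibres of `π : X → V` have at most `k` points, and the
generators move points inside the fibres or along edges of `T`. -/
structure TreeLike {G : Type u} [Group G] (S : Finset G) {X : Type v} [MulAction G X] {V : Type w}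
    (T : SimpleGraph V) (π : X → V) (L k : ℕ) : Prop where
  girth : NoShortCycle T L
  fibre : ∀ t : V, {x | π x = t}.encard ≤ k
  move : ∀ x, ∀ s ∈ S, π (s • x) = π x ∨ T.Adj (π x) (π (s • x))

theorem type4_type3 {G : Type u} [Group G] [Infinite G] (h : Type4 G) : Type3 G := by
  obtain ⟨p, hp, h⟩ := h
  refine ⟨?_, ?_⟩
  · rintro ⟨c, hc⟩
    have hcf : ¬ IsOfFinOrder c := by
      intro hf
      have h1 : (Set.univ : Set G).Finite := by
        refine hf.finite_zpowers.subset ?_
        intro g _
        obtain ⟨a, ha⟩ := hc g
        exact ⟨a, ha⟩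
      exact Set.infinite_univ h1
    have h1 : Subgroup.zpowers (c ^ (2 : ℤ)) ≠ ⊥ := by
      intro e
      rw [Subgroup.zpowers_eq_bot] at e
      have := R673.MG.zpow_inj_of hcf (e.trans (zpow_zero c).symm)
      omega
    have h2 : Subgroup.zpowers (c ^ (2 : ℤ)) ≠ ⊤ := by
      intro e
      have h3 : c ∈ Subgroup.zpowers (c ^ (2 : ℤ)) := by rw [e]; trivial
      obtain ⟨a, ha⟩ := h3
      have ha' : (c ^ (2 : ℤ)) ^ a = c ^ (1 : ℤ) := by rw [zpow_one]; exact ha
      rw [← zpow_mul] at ha'
      have := R673.MG.zpow_inj_of hcf ha'
      omega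
    obtain ⟨-, h3⟩ := h _ h1 h2
    rw [Nat.card_zpowers] at h3
    have h4 : IsOfFinOrder (c ^ (2 : ℤ)) := by
      rw [← orderOf_pos_iff, h3]
      exact hp.pos
    apply hcf
    obtain ⟨n, hn, hn1⟩ := isOfFinOrder_iff_pow_eq_one.1 h4
    rw [← zpow_natCast, ← zpow_mul] at hn1
    have := R673.MG.zpow_inj_of hcf (hn1.trans (zpow_zero c).symm)
    omega
  · intro H hH
    by_cases hb : H = ⊥
    · rw [hb]
      exact isCyclic_of_subsingleton
    · exact (h H hb hH).1

open Classical in
/-- Let `G` be a finitely presented monster of type (3), (4) or (5), or any finitely presented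
infinite group without proper subgroups of finite index (for instance a simple monster of any
type), and `S` a finite generating set. Then `G` has no proper subgroup of finite index, and there
is `L` such that, over graphs `T` without cycles of length at most `L`:

(a) for every `k` there is `C` such that for every action of `G` on a set `X` and every finite set
`F` of points of `X` which lies with fibres of at most `k` points over `T`, at most `C |∂F|` of the
points of `F` are not fixed by `G`;

(b) if `G` has subexponential growth (as in type (7)) or is amenable, then every tree-like action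
of `G` is trivial. -/
theorem result (G : Type u) [Group G] [Infinite G] [Group.IsFinitelyPresented G] (S : Finset G)
    (hS : Subgroup.closure (S : Set G) = ⊤)
    (hG : Type3 G ∨ Type4 G ∨ Type5 G ∨ NoFiniteIndex G) :
    NoFiniteIndex G ∧ ∃ L : ℕ,
      (∀ k : ℕ, ∃ C : ℕ, ∀ (X : Type v) [MulAction G X] (F : Finset X) (V : Type w)
        (T : SimpleGraph V) (π : X → V), NoShortCycle T L →
        (∀ t, (F.filter (fun x => π x = t)).card ≤ k) →
        (∀ x ∈ F, ∀ s ∈ S, s • x ∈ F → π (s • x) = π x ∨ T.Adj (π x) (π (s • x))) →
        (F.filter (fun x => ∃ g : G, g • x ≠ x)).card ≤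
          C * (F.filter (fun x => ∃ s ∈ S, s • x ∉ F ∨ s⁻¹ • x ∉ F)).card) ∧
      (Subexponential S ∨ Amenable G →
        ∀ (X : Type v) [MulAction G X] (V : Type w) (T : SimpleGraph V) (π : X → V) (k : ℕ),
          TreeLike S T π L k → ∀ (g : G) (x : X), g • x = x) := by
  have hno : NoFiniteIndex G := by
    rcases hG with h | h | h | h
    · exact R673.MG.cyclic_no_fi h.1 h.2
    · have h' := type4_type3 h
      exact R673.MG.cyclic_no_fi h'.1 h'.2
    · exact R673.MG.complete_no_fi h
    · exact h
  refine ⟨hno, ?_⟩
  obtain ⟨L1, hL1⟩ := Pool.Agent.H71R2.TW.main.{u, v, w} S hS hno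
  by_cases ham : Amenable G
  · obtain ⟨m, hm0, hm1, hm2, hm3⟩ := ham
    obtain ⟨L2, hL2⟩ := Pool.Agent.H71R2.AM.main.{u, v, w} S hS hno m hm0 hm1 hm2 hm3
    refine ⟨max L1 L2, ?_, ?_⟩
    · intro k
      obtain ⟨C, hC⟩ := hL1 k
      refine ⟨C, ?_⟩
      intro X _ F V T π hT hk hm
      exact hC X F V T π (fun v c hc => lt_of_le_of_lt (le_max_left _ _) (hT v c hc)) hk hm
    · intro _ X _ V T π k h
      exact hL2 X V T π k (fun v c hc => lt_of_le_of_lt (le_max_right _ _) (h.girth v c hc))
        h.fibre h.move
  · refine ⟨L1, ?_, ?_⟩
    · intro k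
      obtain ⟨C, hC⟩ := hL1 k
      refine ⟨C, ?_⟩
      intro X _ F V T π hT hk hm
      exact hC X F V T π hT hk hm
    · intro hsub X _ V T π k h
      have hsub' : Subexponential S := hsub.resolve_right ham
      obtain ⟨C, hC⟩ := hL1 k
      exact R673.MG.no_action S L1 k C hC hsub' X V T π h.girth h.fibre h.move

end Pool.Agent.Results.MP_65b575_al.TreeLikeActions
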